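import Pool.Agent.H646R2.OM.Diag

set_option autoImplicit false

/-!
There is a Turing degree below `0^(ω)` which is not the degree of any complete theory (countably
categorical or not) with a computable model.
-/

namespace Pool.Agent.Results.MP_f36693_lc.DegreeWithoutTheory

open Pool.Agent.Helper750.DC Pool.Agent.Helper750.CT
open Pool.Agent.Helper578.JD Pool.Agent.Helper578.JD.Defs
open Pool.Agent.H646R2.OM

/-- Negative answer to Q1: there is a Turing degree `d ≤ 0^(ω)` such that no complete theory `T` in
a computable language which has a computable model has Turing degree `d`. (The theory `T` is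
arbitrary, in particular no countably categorical theory with a computable model has degree `d`.) -/
theorem result : ∃ d : TuringDegree, d ≤ deg zeroOmega ∧
    ∀ (L : Lang) (T : Set Fml), L.IsComputable → IsCompleteIn L T →
      (∃ A : Str, IsComputableStr L A ∧ IsModel L T A) → deg (codes T) ≠ d := by
  obtain ⟨D, hD, h⟩ := main
  refine ⟨deg D, hD, fun L T hL hT hA heq => h L T hL hT hA ?_⟩
  have h1 : AntisymmRel TuringReducible (Defs.chi (codes T)) (Defs.chi D) := Quotient.exact heq
  exact ⟨h1.1, h1.2⟩

end Pool.Agent.Results.MP_f36693_lc.DegreeWithoutTheory
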